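import Mathlib

set_option maxHeartbeats 1000000

namespace Pool.Agent.Results.MP_df084a_an.NoConstant

open Complex

/-- A pure oriented simplicial 2-complex on the vertex set `V`.  `face u v w` says that
`{u, v, w}` is a 2-simplex and that `(u, v, w)` is its positive orientation. -/
structure OComplex (V : Type) where
  face : V → V → V → Prop
  rotate : ∀ u v w, face u v w → face v w u
  ne : ∀ u v w, face u v w → u ≠ v
  cover : ∀ v, ∃ u w, face v u w
  coherent : ∀ u v w w', face u v w → face u v w' → w = w'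
  oneSided : ∀ u v w, face u v w → ¬ face v u w

/-- The geometric realization, in barycentric coordinates. -/
def OComplex.realization {V : Type} [Fintype V] (K : OComplex V) : Set (V → ℝ) :=
  {x | (∀ v, 0 ≤ x v) ∧ ∑ v, x v = 1 ∧
    ∃ u v w, K.face u v w ∧ ∀ y, x y ≠ 0 → y = u ∨ y = v ∨ y = w}

/-- `K` triangulates a closed topological disc. -/
def OComplex.IsClosedDisc {V : Type} [Fintype V] (K : OComplex V) : Prop :=
  Nonempty (K.realization ≃ₜ Metric.closedBall (0 : ℂ) 1)

/-- The edge `{u, v}` lies in the face on one of its sides only. -/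
def OComplex.BdryEdge {V : Type} (K : OComplex V) (u v : V) : Prop :=
  (∃ w, K.face u v w) ∧ ¬ ∃ w, K.face v u w

/-- `v` is an end of a boundary edge. -/
def OComplex.IsBoundary {V : Type} (K : OComplex V) (v : V) : Prop :=
  ∃ u, K.BdryEdge u v ∨ K.BdryEdge v u

/-- A circle packing for `K` in the closed unit disc (centres `Z`, euclidean radii `r`):
tangencies and orientations of `K` are preserved, the circle of an interior vertex lies in the
open unit disc, and the circle of a boundary vertex is allowed to be a horocycle. -/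
structure IsPacking {V : Type} (K : OComplex V) (Z : V → ℂ) (r : V → ℝ) : Prop where
  pos : ∀ v, 0 < r v
  tangent : ∀ u v w, K.face u v w → ‖Z u - Z v‖ = r u + r v
  orient : ∀ u v w, K.face u v w → 0 < ((starRingEnd ℂ) (Z v - Z u) * (Z w - Z u)).im
  inside : ∀ v, ¬ K.IsBoundary v → ‖Z v‖ + r v < 1
  inDisc : ∀ v, ‖Z v‖ + r v ≤ 1

/-- The maximal packing: univalent, with horocycles as boundary circles. -/
structure IsMaximalPacking {V : Type} (K : OComplex V) (Z : V → ℂ) (r : V → ℝ) : Prop where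
  packing : IsPacking K Z r
  univalent : ∀ u v, u ≠ v → r u + r v ≤ ‖Z u - Z v‖
  horocycle : ∀ v, K.IsBoundary v → ‖Z v‖ + r v = 1

/-! ### The complex -/

abbrev Vx (N : ℕ) : Type := Bool ⊕ Fin (N + 1)

def base (N : ℕ) : Vx N → Vx N → Vx N → Prop
  | .inl true, .inr i, .inr j => (j : ℕ) = i + 1
  | .inl false, .inr i, .inr j => (i : ℕ) = j + 1
  | .inl true, .inr i, .inl false => (i : ℕ) = N
  | _, _, _ => False

def fc (N : ℕ) (u v w : Vx N) : Prop := base N u v w ∨ base N v w u ∨ base N w u v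

lemma fc_rotate (N : ℕ) (u v w : Vx N) (h : fc N u v w) : fc N v w u := by
  unfold fc at *; tauto

lemma fc_ne (N : ℕ) (u v w : Vx N) (h : fc N u v w) : u ≠ v := by
  rintro rfl
  rcases u with (_ | _) | u <;> rcases w with (_ | _) | w <;> simp [fc, base] at h

lemma fc_coherent (N : ℕ) (u v w w' : Vx N) (h : fc N u v w) (h' : fc N u v w') : w = w' := by
  rcases u with (_ | _) | u <;> rcases v with (_ | _) | v <;> rcases w with (_ | _) | w <;>
    rcases w' with (_ | _) | w' <;> simp [fc, base, Fin.ext_iff] at h h' ⊢ <;> omega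

lemma fc_oneSided (N : ℕ) (u v w : Vx N) (h : fc N u v w) : ¬ fc N v u w := by
  rcases u with (_ | _) | u <;> rcases v with (_ | _) | v <;> rcases w with (_ | _) | w <;>
    simp [fc, base] at h ⊢ <;> omega

lemma fc_cover (N : ℕ) (hN : 1 ≤ N) (v : Vx N) : ∃ u w, fc N v u w := by
  rcases v with (_ | _) | v
  · refine ⟨.inr ⟨1, by omega⟩, .inr ⟨0, by omega⟩, Or.inl ?_⟩
    simp [base]
  · refine ⟨.inr ⟨0, by omega⟩, .inr ⟨1, by omega⟩, Or.inl ?_⟩
    simp [base]
  · by_cases h : (v : ℕ) = N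
    · refine ⟨.inl false, .inl true, ?_⟩
      simp [fc, base, h]
    · refine ⟨.inr ⟨v + 1, by have := v.2; omega⟩, .inl true, ?_⟩
      simp [fc, base]

def KN (N : ℕ) (hN : 1 ≤ N) : OComplex (Vx N) where
  face := fc N
  rotate := fc_rotate N
  ne := fc_ne N
  cover := fc_cover N hN
  coherent := fc_coherent N
  oneSided := fc_oneSided N

lemma fc_both (N : ℕ) (i : Fin (N + 1)) (hi : 1 ≤ (i : ℕ)) (u : Vx N)
    (h : (∃ w, fc N u (.inr i) w) ∨ ∃ w, fc N (.inr i) u w) :
    (∃ w, fc N u (.inr i) w) ∧ ∃ w, fc N (.inr i) u w := by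
  have hi2 := i.2
  rcases u with (_ | _) | u
  · refine ⟨⟨.inr ⟨i - 1, by omega⟩, ?_⟩, ?_⟩
    · simp [fc, base]; omega
    · by_cases hN : (i : ℕ) = N
      · exact ⟨.inl true, by simp [fc, base, hN]⟩
      · exact ⟨.inr ⟨i + 1, by omega⟩, by simp [fc, base]⟩
  · refine ⟨?_, ⟨.inr ⟨i - 1, by omega⟩, ?_⟩⟩
    · by_cases hN : (i : ℕ) = N
      · exact ⟨.inl false, by simp [fc, base, hN]⟩
      · exact ⟨.inr ⟨i + 1, by omega⟩, by simp [fc, base]⟩
    · simp [fc, base]; omega
  · have hu : (u : ℕ) = i + 1 ∨ (i : ℕ) = u + 1 := by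
      rcases h with ⟨w, hw⟩ | ⟨w, hw⟩ <;> rcases w with (_ | _) | w <;>
        simp [fc, base] at hw <;> omega
    rcases hu with hu | hu
    · exact ⟨⟨.inl false, by simp [fc, base, hu]⟩, ⟨.inl true, by simp [fc, base, hu]⟩⟩
    · exact ⟨⟨.inl true, by simp [fc, base, hu]⟩, ⟨.inl false, by simp [fc, base, hu]⟩⟩

lemma not_bdry (N : ℕ) (hN : 1 ≤ N) (i : Fin (N + 1)) (hi : 1 ≤ (i : ℕ)) :
    ¬ (KN N hN).IsBoundary (.inr i) := by
  rintro ⟨u, h | h⟩
  · exact h.2 (fc_both N i hi u (Or.inl h.1)).2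
  · exact h.2 (fc_both N i hi u (Or.inr h.1)).1

/-! ### The realization of the complex is a closed disc -/

/-- positions of the chain vertices -/
noncomputable def sg (i : ℕ) : ℝ := 1 / ((i : ℝ) + 1)

lemma sg_pos (i : ℕ) : 0 < sg i := by unfold sg; positivity

lemma sg_anti {i j : ℕ} (h : i < j) : sg j < sg i := by
  unfold sg
  have h1 : (i : ℝ) < j := by exact_mod_cast h
  have h0 : (0 : ℝ) ≤ i := by positivity
  apply one_div_lt_one_div_of_lt <;> linarith

lemma sg_zero : sg 0 = 1 := by simp [sg]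

noncomputable def X (N : ℕ) (x : Vx N → ℝ) : ℝ := ∑ i : Fin (N + 1), x (.inr i) * sg i
noncomputable def Q (N : ℕ) (x : Vx N → ℝ) : ℝ := ∑ i : Fin (N + 1), x (.inr i) * (sg i) ^ 2
noncomputable def S (N : ℕ) (x : Vx N → ℝ) : ℝ := ∑ i : Fin (N + 1), x (.inr i)

lemma sum_eq (N : ℕ) (x : Vx N → ℝ) : ∑ v, x v = x (.inl true) + x (.inl false) + S N x := by
  rw [Fintype.sum_sum_type]; simp [S]

lemma prod_nonneg' (i k : ℕ) : 0 ≤ (sg k - sg i) * (sg k - sg (i + 1)) := by
  rcases lt_trichotomy k i with h | h | h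
  · have := sg_anti h
    have := sg_anti (show k < i + 1 by omega)
    apply mul_nonneg <;> linarith
  · simp [h]
  · rcases eq_or_lt_of_le (show i + 1 ≤ k by omega) with h' | h'
    · simp [← h']
    · have := sg_anti h
      have := sg_anti h'
      apply mul_nonneg_of_nonpos_of_nonpos <;> linarith

lemma prod_pos' (i k : ℕ) (h1 : k ≠ i) (h2 : k ≠ i + 1) :
    0 < (sg k - sg i) * (sg k - sg (i + 1)) := by
  rcases lt_or_gt_of_ne h1 with h | h
  · have := sg_anti h
    have := sg_anti (show k < i + 1 by omega)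
    apply mul_pos <;> linarith
  · have := sg_anti h
    have := sg_anti (show i + 1 < k by omega)
    apply mul_pos_of_neg_of_neg <;> linarith

lemma idA (N : ℕ) (x : Vx N → ℝ) (a b : ℝ) :
    Q N x - ((a + b) * X N x - a * b * S N x) =
      ∑ k : Fin (N + 1), x (.inr k) * ((sg k - a) * (sg k - b)) := by
  unfold Q X S
  rw [Finset.mul_sum, Finset.mul_sum, ← Finset.sum_sub_distrib, ← Finset.sum_sub_distrib]
  apply Finset.sum_congr rfl
  intros; ring

/-- the two kinds of faces -/
lemma real_cases (N : ℕ) (hN : 1 ≤ N) (x : Vx N → ℝ) (hx : x ∈ (KN N hN).realization) :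
    (∃ (i : ℕ) (e : Bool), i < N ∧ x (.inl e) = 0 ∧
      ∀ k : Fin (N + 1), (k : ℕ) ≠ i → (k : ℕ) ≠ i + 1 → x (.inr k) = 0) ∨
    (∀ k : Fin (N + 1), (k : ℕ) ≠ N → x (.inr k) = 0) := by
  obtain ⟨_, _, u, v, w, hf, hs⟩ := hx
  change fc N u v w at hf
  have key : ∀ u v w, base N u v w → (∀ y, x y ≠ 0 → y = u ∨ y = v ∨ y = w) →
      ((∃ (i : ℕ) (e : Bool), i < N ∧ x (.inl e) = 0 ∧
      ∀ k : Fin (N + 1), (k : ℕ) ≠ i → (k : ℕ) ≠ i + 1 → x (.inr k) = 0) ∨
    (∀ k : Fin (N + 1), (k : ℕ) ≠ N → x (.inr k) = 0)) := by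
    intro u v w hb hs
    rcases u with (_ | _) | u <;> rcases v with (_ | _) | v <;> rcases w with (_ | _) | w <;>
      simp [base] at hb
    · left
      refine ⟨w, true, by have := v.2; omega, ?_, ?_⟩
      · by_contra h
        have := hs _ h
        simp at this
      · intro k h1 h2
        by_contra h
        have := hs _ h
        simp [Fin.ext_iff] at this
        omega
    · right
      intro k h1
      by_contra h
      have := hs _ h
      simp [Fin.ext_iff] at this
      omega
    · left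
      refine ⟨v, false, by have := w.2; omega, ?_, ?_⟩
      · by_contra h
        have := hs _ h
        simp at this
      · intro k h1 h2
        by_contra h
        have := hs _ h
        simp [Fin.ext_iff] at this
        omega
  rcases hf with hf | hf | hf
  · exact key _ _ _ hf hs
  · exact key _ _ _ hf (fun y hy => by have := hs y hy; tauto)
  · exact key _ _ _ hf (fun y hy => by have := hs y hy; tauto)

lemma two_sum (N i : ℕ) (hi : i < N) (f : Fin (N + 1) → ℝ)
    (hf : ∀ k : Fin (N + 1), (k : ℕ) ≠ i → (k : ℕ) ≠ i + 1 → f k = 0) :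
    ∑ k, f k = f ⟨i, by omega⟩ + f ⟨i + 1, by omega⟩ := by
  apply Fintype.sum_eq_add
  · simp
  · rintro k ⟨h1, h2⟩
    apply hf
    · intro h; apply h1; ext; exact h
    · intro h; apply h2; ext; exact h

lemma one_sum (N : ℕ) (f : Fin (N + 1) → ℝ)
    (hf : ∀ k : Fin (N + 1), (k : ℕ) ≠ N → f k = 0) :
    ∑ k, f k = f ⟨N, by omega⟩ := by
  apply Fintype.sum_eq_single
  intro k h1
  apply hf
  intro h; apply h1; ext; exact h

lemma key_inj (N : ℕ) (hN : 1 ≤ N) (x y : Vx N → ℝ) (hx : x ∈ (KN N hN).realization)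
    (hy : ∀ v, 0 ≤ y v) (hys : ∑ v, y v = 1) (hX : X N x = X N y)
    (hY : x (.inl true) - x (.inl false) = y (.inl true) - y (.inl false)) :
    Q N x ≤ Q N y ∧ (Q N y ≤ Q N x → x = y) := by
  have hxs := hx.2.1
  rw [sum_eq] at hxs hys
  rcases real_cases N hN x hx with ⟨i, e, hi, he, hv⟩ | hv
  · have h1 := idA N x (sg i) (sg (i + 1))
    have h2 := idA N y (sg i) (sg (i + 1))
    have h3 : ∑ k : Fin (N + 1), x (.inr k) * ((sg k - sg i) * (sg k - sg (i + 1))) = 0 := by
      apply Finset.sum_eq_zero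
      intro k _
      by_cases a : (k : ℕ) = i
      · simp [a]
      by_cases b : (k : ℕ) = i + 1
      · simp [b]
      rw [hv k a b, zero_mul]
    have hnn : ∀ k ∈ Finset.univ, 0 ≤ y (.inr k) * ((sg (k : Fin (N + 1)) - sg i) * (sg k - sg (i + 1))) :=
      fun k _ => mul_nonneg (hy _) (prod_nonneg' i k)
    have h4 := Finset.sum_nonneg hnn
    have hS : S N y = S N x - 2 * y (.inl e) := by
      cases e <;> linarith
    have hpos : 0 < sg i * sg (i + 1) := mul_pos (sg_pos _) (sg_pos _)
    have h5 : Q N y - Q N x = (∑ k : Fin (N + 1), y (.inr k) * ((sg k - sg i) * (sg k - sg (i + 1))))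
        + 2 * (sg i * sg (i + 1)) * y (.inl e) := by
      rw [h3] at h1
      rw [← h2, ← hX, hS]
      linear_combination - h1
    have h6 : 0 ≤ 2 * (sg i * sg (i + 1)) * y (.inl e) := mul_nonneg (by linarith) (hy _)
    refine ⟨by linarith, fun hle => ?_⟩
    have h7 : ∑ k : Fin (N + 1), y (.inr k) * ((sg k - sg i) * (sg k - sg (i + 1))) = 0 := by
      linarith
    have h8 : 2 * (sg i * sg (i + 1)) * y (.inl e) = 0 := by linarith
    have hye : y (.inl e) = 0 := by
      rcases mul_eq_zero.1 h8 with h | h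
      · linarith
      · exact h
    have hyv : ∀ k : Fin (N + 1), (k : ℕ) ≠ i → (k : ℕ) ≠ i + 1 → y (.inr k) = 0 := by
      intro k a b
      have := (Finset.sum_eq_zero_iff_of_nonneg hnn).1 h7 k (Finset.mem_univ _)
      rcases mul_eq_zero.1 this with h | h
      · exact h
      · have := prod_pos' i k a b
        linarith
    have sx : S N x = x (.inr ⟨i, by omega⟩) + x (.inr ⟨i + 1, by omega⟩) :=
      two_sum N i hi (fun k => x (.inr k)) hv
    have sy : S N y = y (.inr ⟨i, by omega⟩) + y (.inr ⟨i + 1, by omega⟩) :=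
      two_sum N i hi (fun k => y (.inr k)) hyv
    have Xx : X N x = x (.inr ⟨i, by omega⟩) * sg i + x (.inr ⟨i + 1, by omega⟩) * sg (i + 1) :=
      two_sum N i hi (fun k => x (.inr k) * sg k) (fun k a b => by rw [hv k a b, zero_mul])
    have Xy : X N y = y (.inr ⟨i, by omega⟩) * sg i + y (.inr ⟨i + 1, by omega⟩) * sg (i + 1) :=
      two_sum N i hi (fun k => y (.inr k) * sg k) (fun k a b => by rw [hyv k a b, zero_mul])
    have hSS : S N y = S N x := by rw [hS, hye]; ring
    have hlt := sg_anti (show i < i + 1 by omega)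
    have e1 : x (.inr ⟨i, by omega⟩) = y (.inr ⟨i, by omega⟩) := by
      have : (x (.inr ⟨i, by omega⟩) - y (.inr ⟨i, by omega⟩)) * (sg i - sg (i + 1)) = 0 := by
        linear_combination hX - Xx + Xy + sg (i + 1) * (sx - sy + hSS)
      rcases mul_eq_zero.1 this with h | h <;> linarith
    have e2 : x (.inr ⟨i + 1, by omega⟩) = y (.inr ⟨i + 1, by omega⟩) := by linarith
    funext v
    rcases v with b | k
    · cases e <;> cases b <;> linarith
    · by_cases a : (k : ℕ) = i
      · have : k = ⟨i, by omega⟩ := by ext; exact a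
        rw [this]; exact e1
      by_cases b : (k : ℕ) = i + 1
      · have : k = ⟨i + 1, by omega⟩ := by ext; exact b
        rw [this]; exact e2
      rw [hv k a b, hyv k a b]
  · have h1 := idA N x (sg N) 0
    have h2 := idA N y (sg N) 0
    have h3 : ∑ k : Fin (N + 1), x (.inr k) * ((sg k - sg N) * (sg k - 0)) = 0 := by
      apply Finset.sum_eq_zero
      intro k _
      by_cases a : (k : ℕ) = N
      · simp [a]
      rw [hv k a, zero_mul]
    have hpr : ∀ k : Fin (N + 1), (k : ℕ) ≠ N → 0 < (sg k - sg N) * (sg k - 0) := by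
      intro k hk
      have := sg_anti (show (k : ℕ) < N by have := k.2; omega)
      have := sg_pos k
      apply mul_pos <;> linarith
    have hnn : ∀ k ∈ Finset.univ, 0 ≤ y (.inr k) * ((sg (k : Fin (N + 1)) - sg N) * (sg k - 0)) := by
      intro k _
      by_cases a : (k : ℕ) = N
      · simp [a]
      · exact mul_nonneg (hy _) (hpr k a).le
    have h4 := Finset.sum_nonneg hnn
    have h5 : Q N y - Q N x = ∑ k : Fin (N + 1), y (.inr k) * ((sg k - sg N) * (sg k - 0)) := by
      rw [h3] at h1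
      rw [← h2, ← hX]
      linear_combination - h1
    refine ⟨by linarith, fun hle => ?_⟩
    have h7 : ∑ k : Fin (N + 1), y (.inr k) * ((sg k - sg N) * (sg k - 0)) = 0 := by linarith
    have hyv : ∀ k : Fin (N + 1), (k : ℕ) ≠ N → y (.inr k) = 0 := by
      intro k a
      have := (Finset.sum_eq_zero_iff_of_nonneg hnn).1 h7 k (Finset.mem_univ _)
      rcases mul_eq_zero.1 this with h | h
      · exact h
      · have := hpr k a
        linarith
    have sx : S N x = x (.inr ⟨N, by omega⟩) := one_sum N (fun k => x (.inr k)) hv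
    have sy : S N y = y (.inr ⟨N, by omega⟩) := one_sum N (fun k => y (.inr k)) hyv
    have Xx : X N x = x (.inr ⟨N, by omega⟩) * sg N :=
      one_sum N (fun k => x (.inr k) * sg k) (fun k a => by rw [hv k a, zero_mul])
    have Xy : X N y = y (.inr ⟨N, by omega⟩) * sg N :=
      one_sum N (fun k => y (.inr k) * sg k) (fun k a => by rw [hyv k a, zero_mul])
    have hpos := sg_pos N
    have e1 : x (.inr ⟨N, by omega⟩) = y (.inr ⟨N, by omega⟩) := by
      have : (x (.inr ⟨N, by omega⟩) - y (.inr ⟨N, by omega⟩)) * sg N = 0 := by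
        linear_combination hX - Xx + Xy
      rcases mul_eq_zero.1 this with h | h <;> linarith
    funext v
    rcases v with b | k
    · cases b <;> linarith
    · by_cases a : (k : ℕ) = N
      · have : k = ⟨N, by omega⟩ := by ext; exact a
        rw [this]; exact e1
      rw [hv k a, hyv k a]

/-- the triangle with corners `i`, `-i`, `1` -/
def Tri : Set ℂ := {z | 0 ≤ z.re ∧ z.re ≤ 1 - |z.im|}

noncomputable def phi (N : ℕ) (x : Vx N → ℝ) : ℂ := ⟨X N x, x (.inl true) - x (.inl false)⟩

lemma sg_le_one (k : ℕ) : sg k ≤ 1 := by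
  unfold sg
  rw [div_le_one (by positivity)]
  have : (0 : ℝ) ≤ k := by positivity
  linarith

lemma phi_mem (N : ℕ) (hN : 1 ≤ N) (x : Vx N → ℝ) (hx : x ∈ (KN N hN).realization) :
    phi N x ∈ Tri := by
  have hxs := hx.2.1
  rw [sum_eq] at hxs
  have h0 := hx.1
  have ha := h0 (.inl true)
  have hb := h0 (.inl false)
  have hX0 : 0 ≤ X N x := Finset.sum_nonneg (fun k _ => mul_nonneg (h0 _) (sg_pos _).le)
  refine ⟨hX0, ?_⟩
  have h1 : X N x ≤ S N x :=
    Finset.sum_le_sum (fun k _ => mul_le_of_le_one_right (h0 _) (sg_le_one _))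
  have h2 : |x (.inl true) - x (.inl false)| ≤ x (.inl true) + x (.inl false) := by
    rw [abs_le]; constructor <;> linarith
  change X N x ≤ 1 - |x (.inl true) - x (.inl false)|
  linarith

lemma exists_level (N : ℕ) (hN : 1 ≤ N) (R x : ℝ) (hx : x ≤ R) (hx2 : sg N * R ≤ x) :
    ∃ i, i < N ∧ sg (i + 1) * R ≤ x ∧ x ≤ sg i * R := by
  classical
  have hex : ∃ k, sg k * R ≤ x := ⟨N, hx2⟩
  let k := Nat.find hex
  have hk : sg k * R ≤ x := Nat.find_spec hex
  have hkN : k ≤ N := Nat.find_min' hex hx2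
  rcases Nat.eq_zero_or_pos k with h | h
  · refine ⟨0, by omega, ?_, ?_⟩
    · rw [h, sg_zero, one_mul] at hk
      have hxR : x = R := le_antisymm hx hk
      have hR : 0 ≤ R ∨ R < 0 := le_or_gt 0 R
      rcases hR with hR | hR
      · rw [hxR]
        exact mul_le_of_le_one_left hR (sg_le_one _)
      · exfalso
        rw [hxR] at hx2
        have := sg_anti (show 0 < N by omega)
        rw [sg_zero] at this
        nlinarith
    · rw [sg_zero, one_mul]; exact hx
  · refine ⟨k - 1, by omega, ?_, ?_⟩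
    · rw [Nat.sub_add_cancel h]; exact hk
    · have := Nat.find_min hex (show k - 1 < k by omega)
      exact (not_le.1 this).le

lemma phi_surj (N : ℕ) (hN : 1 ≤ N) (z : ℂ) (hz : z ∈ Tri) :
    ∃ x ∈ (KN N hN).realization, phi N x = z := by
  obtain ⟨h1, h2⟩ := hz
  have habs := abs_nonneg z.im
  set R : ℝ := 1 - |z.im| with hR
  rcases le_or_gt z.re (sg N * R) with h | h
  · -- last face
    have hp := sg_pos N
    set c : ℝ := z.re / sg N with hc
    have hc0 : 0 ≤ c := by positivity
    have hcR : c ≤ R := by rw [hc, div_le_iff₀ hp]; linarith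
    have hcz : c * sg N = z.re := by rw [hc]; field_simp
    let x : Vx N → ℝ := Sum.elim (fun b => if b then (1 - c + z.im) / 2 else (1 - c - z.im) / 2)
      (fun k => if (k : ℕ) = N then c else 0)
    have hv : ∀ k : Fin (N + 1), (k : ℕ) ≠ N → x (.inr k) = 0 := fun k hk => if_neg hk
    have hxN : x (.inr ⟨N, by omega⟩) = c := if_pos rfl
    have hxa : x (.inl true) = (1 - c + z.im) / 2 := rfl
    have hxb : x (.inl false) = (1 - c - z.im) / 2 := rfl
    have sx : S N x = x (.inr ⟨N, by omega⟩) := one_sum N (fun k => x (.inr k)) hv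
    have Xx : X N x = x (.inr ⟨N, by omega⟩) * sg N :=
      one_sum N (fun k => x (.inr k) * sg k) (fun k a => by rw [hv k a, zero_mul])
    have hi := abs_le.1 (le_refl |z.im|)
    refine ⟨x, ⟨?_, ?_, .inl true, .inr ⟨N, by omega⟩, .inl false, ?_, ?_⟩, ?_⟩
    · rintro ((_ | _) | k)
      · rw [hxb]; linarith
      · rw [hxa]; linarith
      · by_cases hk : (k : ℕ) = N
        · have : x (.inr k) = c := if_pos hk
          rw [this]; exact hc0
        · rw [hv k hk]
    · rw [sum_eq, sx, hxN, hxa, hxb]; ring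
    · exact Or.inl rfl
    · rintro ((_ | _) | k) hk
      · simp
      · simp
      · have : (k : ℕ) = N := by
          by_contra h
          exact hk (hv k h)
        right; left
        congr 1; ext; exact this
    · apply Complex.ext
      · change X N x = z.re
        rw [Xx, hxN, hcz]
      · change x (.inl true) - x (.inl false) = z.im
        rw [hxa, hxb]; ring
  · obtain ⟨i, hi, hl1, hl2⟩ := exists_level N hN R z.re h2 h.le
    have hlt := sg_anti (show i < i + 1 by omega)
    have hd : 0 < sg i - sg (i + 1) := by linarith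
    set p : ℝ := (z.re - sg (i + 1) * R) / (sg i - sg (i + 1)) with hp
    set q : ℝ := (sg i * R - z.re) / (sg i - sg (i + 1)) with hq
    have hp0 : 0 ≤ p := div_nonneg (by linarith) hd.le
    have hq0 : 0 ≤ q := div_nonneg (by linarith) hd.le
    have hpq : p + q = R := by rw [hp, hq]; field_simp; ring
    have hpq2 : p * sg i + q * sg (i + 1) = z.re := by rw [hp, hq]; field_simp; ring
    let e : Bool := decide (z.im < 0)
    let x : Vx N → ℝ := Sum.elim (fun b => if b = e then 0 else |z.im|)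
      (fun k => if (k : ℕ) = i then p else if (k : ℕ) = i + 1 then q else 0)
    have hv : ∀ k : Fin (N + 1), (k : ℕ) ≠ i → (k : ℕ) ≠ i + 1 → x (.inr k) = 0 := by
      intro k h1 h2
      change (if (k : ℕ) = i then p else if (k : ℕ) = i + 1 then q else 0) = 0
      rw [if_neg h1, if_neg h2]
    have hxi : x (.inr ⟨i, by omega⟩) = p := if_pos rfl
    have hxj : x (.inr ⟨i + 1, by omega⟩) = q := by
      change (if (i + 1 : ℕ) = i then p else if (i + 1 : ℕ) = i + 1 then q else 0) = q
      rw [if_neg (by omega), if_pos rfl]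
    have sx : S N x = x (.inr ⟨i, by omega⟩) + x (.inr ⟨i + 1, by omega⟩) :=
      two_sum N i hi (fun k => x (.inr k)) hv
    have Xx : X N x = x (.inr ⟨i, by omega⟩) * sg i + x (.inr ⟨i + 1, by omega⟩) * sg (i + 1) :=
      two_sum N i hi (fun k => x (.inr k) * sg k) (fun k a b => by rw [hv k a b, zero_mul])
    have hnn : ∀ v, 0 ≤ x v := by
      rintro (b | k)
      · change 0 ≤ (if b = e then 0 else |z.im|)
        split_ifs <;> simp
      · change 0 ≤ (if (k : ℕ) = i then p else if (k : ℕ) = i + 1 then q else 0)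
        split_ifs
        · exact hp0
        · exact hq0
        · exact le_refl 0
    by_cases hneg : z.im < 0
    · have he : e = true := decide_eq_true hneg
      have hxa : x (.inl true) = 0 := by
        change (if true = e then 0 else |z.im|) = 0
        rw [he]; rfl
      have hxb : x (.inl false) = |z.im| := by
        change (if false = e then 0 else |z.im|) = |z.im|
        rw [he]; rfl
      refine ⟨x, ⟨hnn, ?_, .inl false, .inr ⟨i + 1, by omega⟩, .inr ⟨i, by omega⟩, ?_, ?_⟩, ?_⟩
      · rw [sum_eq, sx, hxi, hxj, hxa, hxb]; linarith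
      · exact Or.inl rfl
      · rintro ((_ | _) | k) hk
        · simp
        · exact absurd hxa hk
        · have : (k : ℕ) = i ∨ (k : ℕ) = i + 1 := by
            by_contra h
            push Not at h
            exact hk (hv k h.1 h.2)
          rcases this with h | h
          · right; right; congr 1; ext; exact h
          · right; left; congr 1; ext; exact h
      · apply Complex.ext
        · change X N x = z.re
          rw [Xx, hxi, hxj, hpq2]
        · change x (.inl true) - x (.inl false) = z.im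
          rw [hxa, hxb, abs_of_neg hneg]; ring
    · have he : e = false := decide_eq_false hneg
      have hxb : x (.inl false) = 0 := by
        change (if false = e then 0 else |z.im|) = 0
        rw [he]; rfl
      have hxa : x (.inl true) = |z.im| := by
        change (if true = e then 0 else |z.im|) = |z.im|
        rw [he]; rfl
      refine ⟨x, ⟨hnn, ?_, .inl true, .inr ⟨i, by omega⟩, .inr ⟨i + 1, by omega⟩, ?_, ?_⟩, ?_⟩
      · rw [sum_eq, sx, hxi, hxj, hxa, hxb]; linarith
      · exact Or.inl rfl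
      · rintro ((_ | _) | k) hk
        · exact absurd hxb hk
        · simp
        · have : (k : ℕ) = i ∨ (k : ℕ) = i + 1 := by
            by_contra h
            push Not at h
            exact hk (hv k h.1 h.2)
          rcases this with h | h
          · right; left; congr 1; ext; exact h
          · right; right; congr 1; ext; exact h
      · apply Complex.ext
        · change X N x = z.re
          rw [Xx, hxi, hxj, hpq2]
        · change x (.inl true) - x (.inl false) = z.im
          rw [hxa, hxb, abs_of_nonneg (not_lt.1 hneg)]; ring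

lemma real_compact (N : ℕ) (hN : 1 ≤ N) : IsCompact (KN N hN).realization := by
  have hbig : IsCompact (Set.Icc (fun _ => 0 : Vx N → ℝ) (fun _ => 1)) := isCompact_Icc
  apply hbig.of_isClosed_subset
  · have : (KN N hN).realization = {x : Vx N → ℝ | (∀ v, 0 ≤ x v) ∧ ∑ v, x v = 1} ∩
        ⋃ (t : {t : Vx N × Vx N × Vx N // (KN N hN).face t.1 t.2.1 t.2.2}),
          {x : Vx N → ℝ | ∀ y, (y ≠ t.1.1 ∧ y ≠ t.1.2.1 ∧ y ≠ t.1.2.2) → x y = 0} := by
      ext x
      simp only [OComplex.realization, Set.mem_ofPred_eq, Set.mem_inter_iff, Set.mem_iUnion,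
        Subtype.exists, Prod.exists, exists_prop]
      constructor
      · rintro ⟨h1, h2, u, v, w, hf, hs⟩
        refine ⟨⟨h1, h2⟩, u, v, w, hf, fun y hy => ?_⟩
        by_contra h
        rcases hs y h with h | h | h
        · exact hy.1 h
        · exact hy.2.1 h
        · exact hy.2.2 h
      · rintro ⟨⟨h1, h2⟩, u, v, w, hf, hs⟩
        refine ⟨h1, h2, u, v, w, hf, fun y hy => ?_⟩
        by_contra h
        push Not at h
        exact hy (hs y h)
    rw [this]
    apply IsClosed.inter
    · apply IsClosed.inter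
      · have : {x : Vx N → ℝ | ∀ v, 0 ≤ x v} = ⋂ v, {x | 0 ≤ x v} := by ext; simp
        change IsClosed {x : Vx N → ℝ | ∀ v, 0 ≤ x v}
        rw [this]
        exact isClosed_iInter (fun v => isClosed_le continuous_const (continuous_apply v))
      · exact isClosed_eq (by fun_prop) continuous_const
    · apply isClosed_iUnion_of_finite
      intro t
      have : {x : Vx N → ℝ | ∀ y, (y ≠ t.1.1 ∧ y ≠ t.1.2.1 ∧ y ≠ t.1.2.2) → x y = 0} =
          ⋂ y, ⋂ (_ : y ≠ t.1.1 ∧ y ≠ t.1.2.1 ∧ y ≠ t.1.2.2), {x | x y = 0} := by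
        ext; simp
      rw [this]
      exact isClosed_iInter (fun v => isClosed_iInter
        (fun _ => isClosed_eq (continuous_apply v) continuous_const))
  · rintro x ⟨h1, h2, _⟩
    refine ⟨fun v => h1 v, fun v => ?_⟩
    change x v ≤ 1
    rw [← h2]
    exact Finset.single_le_sum (fun w _ => h1 w) (Finset.mem_univ v)

lemma tri_convex : Convex ℝ Tri := by
  have : Tri = {z : ℂ | 0 ≤ z.re} ∩ ({z : ℂ | z.re + z.im ≤ 1} ∩ {z : ℂ | z.re - z.im ≤ 1}) := by
    ext z
    simp only [Tri, Set.mem_ofPred_eq, Set.mem_inter_iff]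
    constructor
    · rintro ⟨h1, h2⟩
      have := le_abs_self z.im
      have := neg_abs_le z.im
      refine ⟨h1, ?_, ?_⟩ <;> linarith
    · rintro ⟨h1, h2, h3⟩
      refine ⟨h1, ?_⟩
      rcases abs_cases z.im with h | h <;> linarith
  rw [this]
  intro z hz w hw a b ha hb hab
  simp only [Set.mem_inter_iff, Set.mem_ofPred_eq, Complex.add_re, Complex.add_im,
    Complex.real_smul, Complex.mul_re, Complex.mul_im, Complex.ofReal_re, Complex.ofReal_im] at *
  obtain ⟨h1, h2, h3⟩ := hz
  obtain ⟨k1, k2, k3⟩ := hw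
  refine ⟨?_, ?_, ?_⟩ <;> nlinarith [mul_nonneg ha h1, mul_nonneg hb k1,
    mul_le_mul_of_nonneg_left h2 ha, mul_le_mul_of_nonneg_left k2 hb,
    mul_le_mul_of_nonneg_left h3 ha, mul_le_mul_of_nonneg_left k3 hb]

lemma tri_closed : IsClosed Tri := by
  apply IsClosed.inter
  · exact isClosed_le continuous_const Complex.continuous_re
  · exact isClosed_le Complex.continuous_re
      (continuous_const.sub (Complex.continuous_im.abs))

lemma tri_bounded : Bornology.IsBounded Tri := by
  rw [isBounded_iff_forall_norm_le]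
  refine ⟨2, fun z hz => ?_⟩
  obtain ⟨h1, h2⟩ := hz
  have h3 := Complex.norm_le_abs_re_add_abs_im z
  rw [abs_of_nonneg h1] at h3
  have := abs_nonneg z.im
  linarith

lemma tri_interior : (interior Tri).Nonempty := by
  refine ⟨⟨1 / 4, 0⟩, ?_⟩
  rw [mem_interior]
  refine ⟨{z : ℂ | 0 < z.re} ∩ {z : ℂ | z.re < 1 - |z.im|}, ?_, ?_, ?_⟩
  · rintro z ⟨h1, h2⟩
    exact ⟨le_of_lt h1, le_of_lt h2⟩
  · apply IsOpen.inter
    · exact isOpen_lt continuous_const Complex.continuous_re
    · exact isOpen_lt Complex.continuous_re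
        (continuous_const.sub (Complex.continuous_im.abs))
  · constructor <;> norm_num

lemma tri_homeo : Nonempty (Tri ≃ₜ Metric.closedBall (0 : ℂ) 1) := by
  obtain ⟨h, -, h2, -⟩ := exists_homeomorph_image_interior_closure_frontier_eq_unitBall
    tri_convex tri_interior tri_bounded
  rw [tri_closed.closure_eq] at h2
  exact ⟨(h.image Tri).trans (Homeomorph.setCongr h2)⟩

lemma isClosedDisc (N : ℕ) (hN : 1 ≤ N) : (KN N hN).IsClosedDisc := by
  obtain ⟨g⟩ := tri_homeo
  let f : (KN N hN).realization → Tri := fun x => ⟨phi N x.1, phi_mem N hN x.1 x.2⟩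
  have hinj : Function.Injective f := by
    rintro ⟨x, hx⟩ ⟨y, hy⟩ hxy
    have h := congrArg Subtype.val hxy
    change phi N x = phi N y at h
    have hX : X N x = X N y := congrArg Complex.re h
    have hY : x (.inl true) - x (.inl false) = y (.inl true) - y (.inl false) :=
      congrArg Complex.im h
    have k1 := key_inj N hN x y hx hy.1 hy.2.1 hX hY
    have k2 := key_inj N hN y x hy hx.1 hx.2.1 hX.symm hY.symm
    exact Subtype.ext (k1.2 k2.1)
  have hsurj : Function.Surjective f := by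
    rintro ⟨z, hz⟩
    obtain ⟨x, hx, hxz⟩ := phi_surj N hN z hz
    exact ⟨⟨x, hx⟩, Subtype.ext hxz⟩
  have hcont : Continuous f := by
    apply Continuous.subtype_mk
    have : Continuous (fun x : Vx N → ℝ => phi N x) := by
      have h1 : Continuous (fun x : Vx N → ℝ => X N x) := by unfold X; fun_prop
      have h2 : Continuous (fun x : Vx N → ℝ => x (.inl true) - x (.inl false)) := by fun_prop
      exact Complex.equivRealProdCLM.symm.continuous.comp (h1.prodMk h2)
    exact this.comp continuous_subtype_val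
  have : CompactSpace (KN N hN).realization := isCompact_iff_compactSpace.1 (real_compact N hN)
  exact ⟨(Continuous.homeoOfEquivCompactToT2 (f := Equiv.ofBijective f ⟨hinj, hsurj⟩) hcont).trans g⟩

/-! ### The packings -/

lemma bdry_inl (N : ℕ) (hN : 1 ≤ N) (b : Bool) : (KN N hN).IsBoundary (.inl b) := by
  cases b
  · refine ⟨.inl true, Or.inr ⟨⟨.inr ⟨N, by omega⟩, ?_⟩, ?_⟩⟩
    · change fc N _ _ _
      simp [fc, base]
    · rintro ⟨w, hw⟩
      change fc N _ _ _ at hw
      rcases w with (_ | _) | w <;> simp [fc, base] at hw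
  · refine ⟨.inl false, Or.inl ⟨⟨.inr ⟨N, by omega⟩, ?_⟩, ?_⟩⟩
    · change fc N _ _ _
      simp [fc, base]
    · rintro ⟨w, hw⟩
      change fc N _ _ _ at hw
      rcases w with (_ | _) | w <;> simp [fc, base] at hw

lemma bdry_zero (N : ℕ) (hN : 1 ≤ N) (i : Fin (N + 1)) (hi : (i : ℕ) = 0) :
    (KN N hN).IsBoundary (.inr i) := by
  refine ⟨.inl true, Or.inl ⟨⟨.inr ⟨1, by omega⟩, ?_⟩, ?_⟩⟩
  · change fc N _ _ _
    simp [fc, base, hi]
  · rintro ⟨w, hw⟩
    change fc N _ _ _ at hw
    rcases w with (_ | _) | w <;> simp [fc, base, hi] at hw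

noncomputable def ctr (N : ℕ) (s R : ℝ) (u : ℕ → ℝ) : Vx N → ℂ :=
  Sum.elim (fun b => ⟨s, if b then R else -R⟩) (fun k => ⟨(u k + u (k + 1)) / 2, 0⟩)

noncomputable def rad (N : ℕ) (R : ℝ) (u : ℕ → ℝ) : Vx N → ℝ :=
  Sum.elim (fun _ => R) (fun k => (u (k + 1) - u k) / 2)

lemma norm_eq (z : ℂ) (c : ℝ) (hc : 0 ≤ c) (h : z.re ^ 2 + z.im ^ 2 = c ^ 2) : ‖z‖ = c := by
  have h1 : ‖z‖ ^ 2 = c ^ 2 := by rw [Complex.sq_norm, Complex.normSq_apply]; linarith
  exact (pow_left_inj₀ (norm_nonneg _) hc two_ne_zero).1 h1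

lemma norm_le' (z : ℂ) (c : ℝ) (hc : 0 ≤ c) (h : z.re ^ 2 + z.im ^ 2 ≤ c ^ 2) : ‖z‖ ≤ c := by
  have h1 : ‖z‖ ^ 2 ≤ c ^ 2 := by rw [Complex.sq_norm, Complex.normSq_apply]; linarith
  exact (pow_le_pow_iff_left₀ (norm_nonneg _) hc two_ne_zero).1 h1

lemma norm_real (x : ℝ) : ‖(⟨x, 0⟩ : ℂ)‖ = |x| := by
  apply norm_eq _ _ (abs_nonneg _)
  simp

lemma cyc (a b c : ℂ) : ((starRingEnd ℂ) (b - a) * (c - a)).im =
    ((starRingEnd ℂ) (c - b) * (a - b)).im := by
  simp only [Complex.mul_im, Complex.conj_re, Complex.conj_im, Complex.sub_re, Complex.sub_im]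
  ring

section
variable (N : ℕ) (hN : 1 ≤ N) (s R : ℝ) (u : ℕ → ℝ) (hR : 0 < R)
  (hmono : ∀ i, u i < u (i + 1)) (hlt : ∀ i, u i < s)
  (htan : ∀ i, (s - u (i + 1)) * (s - u i) = R * (u (i + 1) - u i))
include hR hmono hlt htan

lemma touch_ab : ‖ctr N s R u (.inl true) - ctr N s R u (.inl false)‖ =
    rad N R u (.inl true) + rad N R u (.inl false) := by
  apply norm_eq
  · simp [rad]; linarith
  · simp only [ctr, rad, Sum.elim_inl, Complex.sub_re, Complex.sub_im, Bool.false_eq_true,
      if_false, if_true]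
    ring

lemma touch_aw (b : Bool) (i : Fin (N + 1)) : ‖ctr N s R u (.inl b) - ctr N s R u (.inr i)‖ =
    rad N R u (.inl b) + rad N R u (.inr i) := by
  have h1 := hmono i
  have h2 := htan i
  apply norm_eq
  · simp only [rad, Sum.elim_inl, Sum.elim_inr]; linarith
  · cases b
    · simp only [ctr, rad, Sum.elim_inl, Sum.elim_inr, Complex.sub_re, Complex.sub_im]
      simp only [Bool.false_eq_true, if_false]
      linear_combination h2
    · simp only [ctr, rad, Sum.elim_inl, Sum.elim_inr, Complex.sub_re, Complex.sub_im]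
      simp only [if_true]
      linear_combination h2

lemma touch_ww (i j : Fin (N + 1)) (hij : (j : ℕ) = i + 1) :
    ‖ctr N s R u (.inr i) - ctr N s R u (.inr j)‖ =
    rad N R u (.inr i) + rad N R u (.inr j) := by
  have h1 := hmono i
  have h2 := hmono (i + 1)
  apply norm_eq
  · simp only [rad, Sum.elim_inr, hij]; linarith
  · simp only [ctr, rad, Sum.elim_inr, Complex.sub_re, Complex.sub_im, hij]
    ring

lemma touch_base (x y z : Vx N) (h : base N x y z) :
    ‖ctr N s R u x - ctr N s R u y‖ = rad N R u x + rad N R u y ∧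
    ‖ctr N s R u y - ctr N s R u z‖ = rad N R u y + rad N R u z ∧
    ‖ctr N s R u z - ctr N s R u x‖ = rad N R u z + rad N R u x := by
  have h1 := touch_ab N s R u hR hmono hlt htan
  have h2 := touch_aw N s R u hR hmono hlt htan
  have h3 := touch_ww N s R u hR hmono hlt htan
  have sym : ∀ x y : Vx N, ‖ctr N s R u x - ctr N s R u y‖ = rad N R u x + rad N R u y →
      ‖ctr N s R u y - ctr N s R u x‖ = rad N R u y + rad N R u x := by
    intro x y h
    rw [norm_sub_rev, h, add_comm]
  rcases x with (_ | _) | x <;> rcases y with (_ | _) | y <;> rcases z with (_ | _) | z <;>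
    simp [base] at h
  · exact ⟨h2 _ _, sym _ _ (h3 _ _ h), sym _ _ (h2 _ _)⟩
  · exact ⟨h2 _ _, sym _ _ (h2 _ _), sym _ _ h1⟩
  · exact ⟨h2 _ _, h3 _ _ h, sym _ _ (h2 _ _)⟩

lemma orient_base (x y z : Vx N) (h : base N x y z) :
    0 < ((starRingEnd ℂ) (ctr N s R u y - ctr N s R u x) *
      (ctr N s R u z - ctr N s R u x)).im := by
  rcases x with (_ | _) | x <;> rcases y with (_ | _) | y <;> rcases z with (_ | _) | z <;>
    simp [base] at h
  · have h1 := hmono z
    have h2 := hmono (z + 1)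
    simp only [ctr, Sum.elim_inl, Sum.elim_inr, Complex.sub_re, Complex.sub_im, h,
      Complex.mul_im, Complex.conj_re, Complex.conj_im, Bool.false_eq_true, if_false]
    nlinarith
  · have h1 := hlt y
    have h2 := hlt (y + 1)
    simp only [ctr, Sum.elim_inl, Sum.elim_inr, Complex.sub_re, Complex.sub_im,
      Complex.mul_im, Complex.conj_re, Complex.conj_im, Bool.false_eq_true, if_false, if_true]
    nlinarith
  · have h1 := hmono y
    have h2 := hmono (y + 1)
    simp only [ctr, Sum.elim_inl, Sum.elim_inr, Complex.sub_re, Complex.sub_im, h,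
      Complex.mul_im, Complex.conj_re, Complex.conj_im, if_true]
    nlinarith

lemma isPacking_of (hsR : s ^ 2 ≤ 1 - 2 * R) (hu0 : -1 ≤ u 0) (hs : s < 1) (hs0 : 0 < s) :
    IsPacking (KN N hN) (ctr N s R u) (rad N R u) := by
  have hm : ∀ i, 1 ≤ i → -1 < u i := by
    intro i hi
    induction i with
    | zero => omega
    | succ k ih =>
      rcases Nat.eq_zero_or_pos k with h | h
      · subst h; have := hmono 0; linarith
      · have := ih h; have := hmono k; linarith
  have hm' : ∀ i, -1 ≤ u i := by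
    intro i
    rcases Nat.eq_zero_or_pos i with h | h
    · rw [h]; exact hu0
    · exact (hm i h).le
  have htch := touch_base N s R u hR hmono hlt htan
  have hor := orient_base N s R u hR hmono hlt htan
  refine ⟨?_, ?_, ?_, ?_, ?_⟩
  · rintro (b | k)
    · exact hR
    · have := hmono k
      change 0 < (u (k + 1) - u k) / 2
      linarith
  · intro x y z h
    change fc N x y z at h
    rcases h with h | h | h
    · exact (htch _ _ _ h).1
    · exact (htch _ _ _ h).2.2
    · exact (htch _ _ _ h).2.1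
  · intro x y z h
    change fc N x y z at h
    rcases h with h | h | h
    · exact hor _ _ _ h
    · rw [cyc]; exact hor _ _ _ h
    · rw [← cyc]; exact hor _ _ _ h
  · rintro (b | k) hv
    · exact absurd (bdry_inl N hN b) hv
    · have hk : 1 ≤ (k : ℕ) := by
        by_contra h
        exact hv (bdry_zero N hN k (by omega))
      change ‖(⟨(u k + u (k + 1)) / 2, 0⟩ : ℂ)‖ + (u (k + 1) - u k) / 2 < 1
      rw [norm_real]
      have h1 := hm k hk
      have h2 := hlt (k + 1)
      rcases abs_cases ((u k + u (k + 1)) / 2) with h | h <;> linarith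
  · rintro (b | k)
    · have hR2 : R ≤ 1 := by nlinarith [sq_nonneg s]
      have : ‖ctr N s R u (.inl b)‖ ≤ 1 - R := by
        apply norm_le' _ _ (by linarith)
        cases b
        · simp only [ctr, Sum.elim_inl, Bool.false_eq_true, if_false]
          nlinarith
        · simp only [ctr, Sum.elim_inl, if_true]
          nlinarith
      change ‖ctr N s R u (.inl b)‖ + R ≤ 1
      linarith
    · change ‖(⟨(u k + u (k + 1)) / 2, 0⟩ : ℂ)‖ + (u (k + 1) - u k) / 2 ≤ 1
      rw [norm_real]
      have h1 := hm' k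
      have h2 := hlt (k + 1)
      rcases abs_cases ((u k + u (k + 1)) / 2) with h | h <;> linarith

lemma isMaximal_of (hsR : s ^ 2 = 1 - 2 * R) (hu0 : u 0 = -1) (hs : s < 1) (hs0 : 0 < s) :
    IsMaximalPacking (KN N hN) (ctr N s R u) (rad N R u) := by
  have hmon : StrictMono u := strictMono_nat_of_lt_succ hmono
  have h1 := touch_ab N s R u hR hmono hlt htan
  have h2 := touch_aw N s R u hR hmono hlt htan
  refine ⟨isPacking_of N hN s R u hR hmono hlt htan hsR.le hu0.ge hs hs0, ?_, ?_⟩
  · have sym : ∀ x y : Vx N, rad N R u x + rad N R u y ≤ ‖ctr N s R u x - ctr N s R u y‖ →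
        rad N R u y + rad N R u x ≤ ‖ctr N s R u y - ctr N s R u x‖ := by
      intro x y h
      rw [norm_sub_rev, add_comm]; exact h
    have hww : ∀ i j : Fin (N + 1), (i : ℕ) < j → rad N R u (.inr i) + rad N R u (.inr j) ≤
        ‖ctr N s R u (.inr i) - ctr N s R u (.inr j)‖ := by
      intro i j hij
      have h3 : u (i + 1) ≤ u j := hmon.monotone hij
      have h4 : (ctr N s R u (.inr i) - ctr N s R u (.inr j)) =
          ⟨(u i + u (i + 1)) / 2 - (u j + u (j + 1)) / 2, 0⟩ := by
        apply Complex.ext <;> simp [ctr]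
      rw [h4, norm_real]
      have h5 := neg_abs_le ((u i + u (i + 1)) / 2 - (u j + u (j + 1)) / 2)
      have h6 := hmono i
      have h7 := hmono j
      simp only [rad, Sum.elim_inr]
      linarith
    rintro ((_ | _) | x) ((_ | _) | y) hxy
    · exact absurd rfl hxy
    · exact sym _ _ h1.ge
    · exact (h2 _ _).ge
    · exact h1.ge
    · exact absurd rfl hxy
    · exact (h2 _ _).ge
    · exact sym _ _ (h2 _ _).ge
    · exact sym _ _ (h2 _ _).ge
    · rcases lt_trichotomy (x : ℕ) (y : ℕ) with h | h | h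
      · exact hww _ _ h
      · exact absurd (congrArg Sum.inr (Fin.ext h)) hxy
      · exact sym _ _ (hww _ _ h)
  · rintro (b | k) hv
    · have hR2 : R ≤ 1 := by nlinarith [sq_nonneg s]
      have : ‖ctr N s R u (.inl b)‖ = 1 - R := by
        apply norm_eq _ _ (by linarith)
        cases b
        · simp only [ctr, Sum.elim_inl, Bool.false_eq_true, if_false]
          nlinarith
        · simp only [ctr, Sum.elim_inl, if_true]
          nlinarith
      change ‖ctr N s R u (.inl b)‖ + R = 1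
      linarith
    · have hk : (k : ℕ) = 0 := by
        by_contra h
        exact not_bdry N hN k (by omega) hv
      change ‖(⟨(u k + u (k + 1)) / 2, 0⟩ : ℂ)‖ + (u (k + 1) - u k) / 2 = 1
      rw [norm_real, hk, hu0]
      have h2 := hlt (0 + 1)
      rw [abs_of_nonpos (by linarith)]
      ring

end

noncomputable def D (m : ℕ) (s : ℝ) (i : ℕ) : ℝ := 1 - s + 2 * ((i : ℝ) - m) * s

noncomputable def U (m : ℕ) (s : ℝ) (i : ℕ) : ℝ := s - s * (1 - s ^ 2) / D m s i

lemma D_succ (m : ℕ) (s : ℝ) (i : ℕ) : D m s (i + 1) = D m s i + 2 * s := by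
  unfold D; push_cast; ring

section
variable (m : ℕ) (s : ℝ) (h0 : 0 < s) (h1 : s < 1) (hm : 2 * ((m : ℝ) + 1) * s ≤ s ^ 2 + 1)
include h0 h1 hm

lemma D_pos (i : ℕ) : 0 < D m s i := by
  unfold D
  have hi : (0 : ℝ) ≤ i := by positivity
  have h2 : 0 ≤ (i : ℝ) * s := mul_nonneg hi h0.le
  nlinarith

lemma U_mono (i : ℕ) : U m s i < U m s (i + 1) := by
  have h2 := D_pos m s h0 h1 hm i
  have h3 := D_pos m s h0 h1 hm (i + 1)
  have h4 := D_succ m s i
  have h5 : 0 < s * (1 - s ^ 2) := by
    apply mul_pos h0; nlinarith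
  unfold U
  have : s * (1 - s ^ 2) / D m s (i + 1) < s * (1 - s ^ 2) / D m s i :=
    div_lt_div_of_pos_left h5 h2 (by linarith)
  linarith

lemma U_lt (i : ℕ) : U m s i < s := by
  have h2 := D_pos m s h0 h1 hm i
  have h5 : 0 < s * (1 - s ^ 2) := by
    apply mul_pos h0; nlinarith
  unfold U
  have := div_pos h5 h2
  linarith

lemma U_tan (i : ℕ) : (s - U m s (i + 1)) * (s - U m s i) =
    (1 - s ^ 2) / 2 * (U m s (i + 1) - U m s i) := by
  have h2 := D_pos m s h0 h1 hm i
  have h3 := D_pos m s h0 h1 hm (i + 1)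
  have h4 := D_succ m s i
  unfold U
  rw [h4] at h3 ⊢
  field_simp
  ring

lemma U_zero : -1 ≤ U m s 0 := by
  have h2 := D_pos m s h0 h1 hm 0
  unfold U
  have h3 : s * (1 - s) ≤ D m s 0 := by
    unfold D; push_cast; nlinarith
  have h4 : s * (1 - s ^ 2) / D m s 0 ≤ 1 + s := by
    rw [div_le_iff₀ h2]
    nlinarith
  linarith

lemma U_zero_eq (he : 2 * ((m : ℝ) + 1) * s = s ^ 2 + 1) : U m s 0 = -1 := by
  have h2 := D_pos m s h0 h1 hm 0
  have h3 : D m s 0 = s * (1 - s) := by
    unfold D; push_cast; linear_combination -he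
  have h5 : (1 - s) ≠ 0 := by linarith
  unfold U
  rw [h3]
  field_simp
  ring

lemma U_m : U m s m = - s ^ 2 := by
  have h3 : D m s m = 1 - s := by
    unfold D; ring
  have h5 : (1 - s) ≠ 0 := by linarith
  unfold U
  rw [h3]
  field_simp
  ring

lemma U_m1 : U m s (m + 1) = s ^ 2 := by
  have h3 : D m s (m + 1) = 1 + s := by
    unfold D; push_cast; ring
  have h5 : (1 + s) ≠ 0 := by linarith
  unfold U
  rw [h3]
  field_simp
  ring

lemma rad_eq (i : ℕ) : (U m s (i + 1) - U m s i) / 2 =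
    s ^ 2 * (1 - s ^ 2) / (D m s i * D m s (i + 1)) := by
  have h2 := D_pos m s h0 h1 hm i
  have h3 := D_pos m s h0 h1 hm (i + 1)
  have h4 := D_succ m s i
  unfold U
  rw [h4] at h3 ⊢
  field_simp
  ring

lemma U_packing (N : ℕ) (hN : 1 ≤ N) : IsPacking (KN N hN) (ctr N s ((1 - s ^ 2) / 2) (U m s))
    (rad N ((1 - s ^ 2) / 2) (U m s)) :=
  isPacking_of N hN s _ _ (by nlinarith) (U_mono m s h0 h1 hm) (U_lt m s h0 h1 hm)
    (U_tan m s h0 h1 hm) (by linarith) (U_zero m s h0 h1 hm) h1 h0

lemma U_maximal (he : 2 * ((m : ℝ) + 1) * s = s ^ 2 + 1) (N : ℕ) (hN : 1 ≤ N) :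
    IsMaximalPacking (KN N hN) (ctr N s ((1 - s ^ 2) / 2) (U m s))
    (rad N ((1 - s ^ 2) / 2) (U m s)) :=
  isMaximal_of N hN s _ _ (by nlinarith) (U_mono m s h0 h1 hm) (U_lt m s h0 h1 hm)
    (U_tan m s h0 h1 hm) (by linarith) (U_zero_eq m s h0 h1 hm he) h1 h0

lemma U_center (N : ℕ) (k : Fin (N + 1)) (hk : (k : ℕ) = m) :
    ctr N s ((1 - s ^ 2) / 2) (U m s) (.inr k) = 0 := by
  have h2 := U_m m s h0 h1 hm
  have h3 := U_m1 m s h0 h1 hm
  apply Complex.ext
  · change (U m s k + U m s (k + 1)) / 2 = 0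
    rw [hk, h2, h3]; ring
  · rfl

end

/-- Question Q1 has a negative answer. -/
theorem result : ¬ ∃ C : ℝ, 0 < C ∧
    ∀ (V : Type) [Fintype V] (K : OComplex V), K.IsClosedDisc →
    ∀ v₀ : V, ¬ K.IsBoundary v₀ →
    ∀ (Z : V → ℂ) (r : V → ℝ), IsMaximalPacking K Z r → Z v₀ = 0 →
    ∀ (W : V → ℂ) (ρ : V → ℝ), IsPacking K W ρ → W v₀ = 0 →
    ∀ v : V, ‖Z v‖ ≤ C → ρ v / r v ≤ 1 := by
  rintro ⟨C, hC, H⟩
  obtain ⟨m, hm1, hmC⟩ : ∃ m : ℕ, 1 ≤ m ∧ 1 / ((m : ℝ) + 1) ≤ C := by
    obtain ⟨n, hn⟩ := exists_nat_one_div_lt hC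
    refine ⟨n + 1, by omega, ?_⟩
    refine le_trans ?_ hn.le
    push_cast
    apply one_div_le_one_div_of_le <;> linarith [(by positivity : (0 : ℝ) ≤ n)]
  set n : ℝ := (m : ℝ) + 1 with hn
  have hn2 : 2 ≤ n := by
    have : (1 : ℝ) ≤ m := by exact_mod_cast hm1
    linarith
  set q : ℝ := Real.sqrt (n ^ 2 - 1) with hq
  have hq2 : q ^ 2 = n ^ 2 - 1 := Real.sq_sqrt (by nlinarith)
  have hq0 : 0 ≤ q := Real.sqrt_nonneg _
  set t : ℝ := n - q with ht
  have hqn : q < n := by nlinarith
  have ht0 : 0 < t := by linarith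
  have hte : 2 * n * t = t ^ 2 + 1 := by rw [ht]; linear_combination -hq2
  have ht1 : t < 1 := by
    have : n - 1 < q := by
      by_contra h
      push Not at h
      nlinarith
    linarith
  have htn : t ≤ 1 / n := by
    rw [le_div_iff₀ (by linarith)]
    nlinarith
  obtain ⟨j, hj⟩ := exists_nat_ge (2 / t ^ 3)
  have ht3 : 0 < t ^ 3 := by positivity
  have hj2 : 2 ≤ j * t ^ 3 := by rwa [div_le_iff₀ ht3] at hj
  have hj1 : 1 ≤ j := by
    rcases Nat.eq_zero_or_pos j with h | h
    · rw [h] at hj2; norm_num at hj2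
    · exact h
  set s : ℝ := t / 2 with hs
  have hs0 : 0 < s := by linarith
  have hs1 : s < 1 := by linarith
  have hsm : 2 * ((m : ℝ) + 1) * s ≤ s ^ 2 + 1 := by
    rw [← hn, hs]; nlinarith
  have htm : 2 * ((m : ℝ) + 1) * t ≤ t ^ 2 + 1 := by rw [← hn]; exact hte.le
  have hN : 1 ≤ m + j := by omega
  have hfin := H (Vx (m + j)) (KN (m + j) hN) (isClosedDisc _ hN) (.inr ⟨m, by omega⟩)
    (not_bdry _ hN _ hm1) _ _ (U_maximal m t ht0 ht1 htm (by rw [← hn]; exact hte) (m + j) hN)
    (U_center m t ht0 ht1 htm _ _ rfl) _ _ (U_packing m s hs0 hs1 hsm (m + j) hN)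
    (U_center m s hs0 hs1 hsm _ _ rfl) (.inr ⟨m + j, by omega⟩) ?_
  · change ((U m s (m + j + 1) - U m s (m + j)) / 2) / ((U m t (m + j + 1) - U m t (m + j)) / 2)
      ≤ 1 at hfin
    rw [rad_eq m s hs0 hs1 hsm, rad_eq m t ht0 ht1 htm] at hfin
    have d1 := D_pos m s hs0 hs1 hsm (m + j)
    have d2 := D_pos m s hs0 hs1 hsm (m + j + 1)
    have d3 := D_pos m t ht0 ht1 htm (m + j)
    have d4 := D_pos m t ht0 ht1 htm (m + j + 1)
    have hpos : 0 < t ^ 2 * (1 - t ^ 2) / (D m t (m + j) * D m t (m + j + 1)) := by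
      apply div_pos
      · apply mul_pos (by positivity); nlinarith
      · positivity
    rw [div_le_one hpos, div_le_div_iff₀ (by positivity) (by positivity)] at hfin
    have e1 : D m s (m + j) = 1 - s + j * t := by
      unfold D; push_cast; rw [hs]; ring
    have e2 : D m s (m + j + 1) = 1 + s + j * t := by
      rw [D_succ, e1]; ring
    have e3 : D m t (m + j) = 1 - t + 2 * (j * t) := by
      unfold D; push_cast; ring
    have e4 : D m t (m + j + 1) = 1 + t + 2 * (j * t) := by
      rw [D_succ, e3]; ring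
    rw [e1, e2, e3, e4] at hfin
    set x : ℝ := j * t with hx
    have hx2 : 2 ≤ x * t ^ 2 := by rw [hx]; nlinarith
    have hx0 : 2 < x := by nlinarith [mul_pos ht0 ht0]
    have hkey : 0 < 3 * t ^ 2 * x ^ 2 + x * (-4 + 7 * t ^ 2) +
        (1 - t ^ 2) * (-3 + 3 * t ^ 2 / 4) := by
      have a1 : 0 ≤ x * (x * t ^ 2 - 2) := mul_nonneg (by linarith) (by linarith)
      have a2 : 0 < t ^ 2 := by positivity
      have a3 : t ^ 2 < 1 := by nlinarith
      have a4 : 0 ≤ t ^ 2 * (1 - t ^ 2) := mul_nonneg a2.le (by linarith)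
      have a5 : 0 < x * t ^ 2 := by positivity
      have a6 : 3 * t ^ 2 * x ^ 2 + x * (-4 + 7 * t ^ 2) + (1 - t ^ 2) * (-3 + 3 * t ^ 2 / 4) =
          3 * (x * (x * t ^ 2 - 2)) + 2 * x + 7 * (x * t ^ 2) - 3 + 3 * t ^ 2 +
          3 / 4 * (t ^ 2 * (1 - t ^ 2)) := by ring
      rw [a6]
      linarith
    have : t ^ 2 / 4 * (3 * t ^ 2 * x ^ 2 + x * (-4 + 7 * t ^ 2) +
        (1 - t ^ 2) * (-3 + 3 * t ^ 2 / 4)) ≤ 0 := by
      have h9 : s = t / 2 := hs
      rw [h9] at hfin
      linarith
    have h8 : 0 < t ^ 2 / 4 := by positivity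
    have h10 := mul_pos h8 hkey
    linarith
  · change ‖(⟨(U m t (m + j) + U m t (m + j + 1)) / 2, 0⟩ : ℂ)‖ ≤ C
    rw [norm_real]
    have hmon : StrictMono (U m t) := strictMono_nat_of_lt_succ (U_mono m t ht0 ht1 htm)
    have k1 : U m t m ≤ U m t (m + j) := hmon.monotone (by omega)
    have k2 : U m t m ≤ U m t (m + j + 1) := hmon.monotone (by omega)
    rw [U_m m t ht0 ht1 htm] at k1 k2
    have k3 := U_lt m t ht0 ht1 htm (m + j)
    have k4 := U_lt m t ht0 ht1 htm (m + j + 1)
    have k5 : t ^ 2 ≤ t := by nlinarith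
    rw [abs_le]
    constructor <;> linarith

end Pool.Agent.Results.MP_df084a_an.NoConstant
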